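import Mathlib
import Pool.Agent.Q267.Multi.Sums

/-!
# MP_cbe697_nt: sums of powers of multinomial coefficients modulo `mn`

With `M_{m,k}^{(r)} = Σ_{k_1+…+k_m = k} (k! / (k_1! … k_m!))^r`, the number `m n` divides
`Σ_{k<n} (-1)^{rk} ((m+1) k + m) M_{m,k}^{(r)}` for all `m, n ≥ 1` and `r ≥ 0`.
-/

namespace Pool.Agent.Results.MP_cbe697_nt.MultinomialPowers

open Finset

/-- `M_{m,n}^{(r)}`: the sum of the `r`-th powers of the multinomial coefficients
`n! / (k_1! … k_m!)` over all `m`-tuples of natural numbers with sum `n` -/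
def M (m n r : ℕ) : ℤ :=
  ∑ k ∈ Finset.Nat.antidiagonalTuple m n, (Nat.multinomial Finset.univ k : ℤ) ^ r

theorem result : ∀ m n r : ℕ, 1 ≤ m → 1 ≤ n →
    ((m : ℤ) * n) ∣ ∑ k ∈ range n, (-1) ^ (r * k) * (((m : ℤ) + 1) * k + m) * M m k r := by
  intro m n r hm hn
  obtain ⟨m, rfl⟩ : ∃ a, m = a + 1 := ⟨m - 1, by omega⟩
  have h := Pool.Agent.Q267.Multi.dvd_sum_pow m n r hn
  push_cast
  exact h

end Pool.Agent.Results.MP_cbe697_nt.MultinomialPowers
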